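import Mathlib
import Pool.Agent.R571.PIW.MainM

/-!
# MP_79b5eb_lc: the equality problem in `M(n)` is undecidable for all `n ≥ 3`

A counter machine is simulated by products `u c₀^i c₁^j v_σ d₀^k d₁^l w`: the states `v_σ` see the
letters `c` on their left and the letters `d` on their right, and the ends `u`, `w` test that a side
is used up. The relations do not identify the words of a halting and of a non-halting configuration
in a quotient of an algebra of `3 × 3` matrices over a polynomial ring (in the corner `(0, 0)` one
reads `u : 0 → 1`, `c : 1 → 1`, `v : 1 → 2`, `d : 2 → 2`, `w : 2 → 0`).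
-/

set_option autoImplicit false

universe u

namespace Pool.Agent.Results.MP_79b5eb_lc.MatrixVarieties

open Pool.Agent.R571.PIW

/-- There are polynomials `u_1, …, u_k` with integer coefficients such that, for all `n ≥ 3` and
all fields `F` of characteristic `0`, it is undecidable whether the quasi-identity
`u_1 = 0 ∧ ⋯ ∧ u_k = 0 → w = 0` holds in `M(n)`, `w` being the input (the word problem of one
finitely presented algebra). In particular the equality problem in `M(n)` is undecidable. -/
theorem result : ∃ us : List (NCPoly ℤ), ∀ n : ℕ, 3 ≤ n → ∀ (F : Type u) [Field F] [CharZero F],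
    (¬ ComputablePred fun w : NCPoly ℤ => HoldsM n F us w) ∧
    ¬ ComputablePred fun p : List (NCPoly ℤ) × NCPoly ℤ => HoldsM n F p.1 p.2 := by
  obtain ⟨us, h⟩ := undecidableM.{u}
  refine ⟨us, fun n hn F _ _ => ⟨h n hn F, fun hdec => h n hn F ?_⟩⟩
  exact ComputablePred.computable_of_manyOneReducible
    (q := fun p : List (NCPoly ℤ) × NCPoly ℤ => HoldsM n F p.1 p.2)
    ⟨fun w => (us, w), (Computable.const us).pair Computable.id, fun w => Iff.rfl⟩ hdec

end Pool.Agent.Results.MP_79b5eb_lc.MatrixVarieties
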