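import Mathlib
import Pool.Agent.R571.PIW.MainS

/-!
# MP_79b5eb_lc: the equality problem in `S(n)` is undecidable for all `n ≥ 6`

The same relations as for `M(n)`, with a model built from upper triangular `4 × 4` matrices whose
first and last diagonal entries vanish; these satisfy `s_6 = 0`.
-/

set_option autoImplicit false

universe u

namespace Pool.Agent.Results.MP_79b5eb_lc.StandardVarieties

open Pool.Agent.R571.PIW

/-- There are polynomials `u_1, …, u_k` with integer coefficients such that, for all `n ≥ 6` and
all fields `F` of characteristic `0`, it is undecidable whether the quasi-identity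
`u_1 = 0 ∧ ⋯ ∧ u_k = 0 → w = 0` holds in `S(n)`, `w` being the input (the word problem of one
finitely presented algebra). In particular the equality problem in `S(n)` is undecidable. -/
theorem result : ∃ us : List (NCPoly ℤ), ∀ n : ℕ, 6 ≤ n → ∀ (F : Type u) [Field F] [CharZero F],
    (¬ ComputablePred fun w : NCPoly ℤ => HoldsS n F us w) ∧
    ¬ ComputablePred fun p : List (NCPoly ℤ) × NCPoly ℤ => HoldsS n F p.1 p.2 := by
  obtain ⟨us, h⟩ := undecidableS.{u}
  refine ⟨us, fun n hn F _ _ => ⟨h n hn F, fun hdec => h n hn F ?_⟩⟩
  exact ComputablePred.computable_of_manyOneReducible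
    (q := fun p : List (NCPoly ℤ) × NCPoly ℤ => HoldsS n F p.1 p.2)
    ⟨fun w => (us, w), (Computable.const us).pair Computable.id, fun w => Iff.rfl⟩ hdec

end Pool.Agent.Results.MP_79b5eb_lc.StandardVarieties
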